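import Mathlib
import Pool.Agent.MP_02c618_ag.Main

set_option autoImplicit false

namespace Pool.Agent.Results.MP_02c618_ag.NoLargeArrangements

/-- `P(n)` fails for every `n ≥ 2`. -/
theorem result (n : ℕ) (hn : 2 ≤ n) :
    ¬ ∀ D : ℕ, ∃ (d : ℕ) (l : Fin d → MvPolynomial (Fin (n + 1)) ℂ),
      D ≤ d ∧ n + 1 ≤ d ∧ (∀ i, (l i).IsHomogeneous 1) ∧
      (∀ t : Finset (Fin d), t.card = n + 1 → LinearIndependent ℂ (fun i : t => l i)) ∧
      IsLeast {r : ℕ | ∃ m : Fin r → MvPolynomial (Fin (n + 1)) ℂ,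
        (∀ j, (m j).IsHomogeneous 1) ∧ ∏ i, l i = ∑ j, m j ^ d} (Nat.choose (2 * n) n) := by
  intro h
  obtain ⟨d, l, hD, hd, hl, hgen, ⟨m, hm, hsum⟩, _⟩ := h (2 * Nat.choose (2 * n) n + 1)
  have := Pool.Agent.MP_02c618_ag.size_le_two_mul hn hd l hl hgen m hm hsum
  omega

end Pool.Agent.Results.MP_02c618_ag.NoLargeArrangements
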